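import Pool.Agent.H356Z.RSum

set_option autoImplicit false

namespace Pool.Agent.Results.MP_0e87b2_co.AFalse

/-- The two-set restricted sum conjecture fails for every `β < 1` and every `n₀`, even when the
subset `B'` of `B` is not required to be of bounded size. -/
theorem result :
    ∀ β : ℝ, β < 1 → ∀ n₀ : ℕ, ∃ p : ℕ, p.Prime ∧
      ∃ (A B : Finset (ZMod p)) (F : Finset (ZMod p × ZMod p)) (n d : ℕ),
        n₀ ≤ n ∧ A.card = n ∧ B.card = n ∧ (n : ℝ) < (1 - β) * (p : ℝ) / 2 ∧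
        d + 4 = n ∧ F ⊆ A ×ˢ B ∧
        (∀ a : ZMod p, (F.filter (fun q => q.1 = a)).card ≤ d) ∧
        (∀ b : ZMod p, (F.filter (fun q => q.2 = b)).card ≤ d) ∧
        ∀ B' : Finset (ZMod p), B' ⊆ B →
          ((((A ×ˢ B') \ F).image (fun q => q.1 + q.2)).card : ℤ) <
            2 * (n : ℤ) - 2 * (d : ℤ) - 1 := by
  intro β hβ n₀
  obtain ⟨p, hp, A, F, d, h1, h2, h3, h4, h5, h6, h7⟩ := Pool.Agent.H356Z.RSum.main β hβ n₀
  refine ⟨p, hp, A, A, F, A.card, d, h1, rfl, rfl, h2, h3, h4, h5, h6, fun B hB => ?_⟩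
  have := h7 B hB
  omega

end Pool.Agent.Results.MP_0e87b2_co.AFalse
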